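import Pool.Agent.helper52.AD.Pairs

/-!
# The number of alternating pairs

The vertices `V × Bool` of the octahedralization are ordered by `(v, true) < (v, false) < (v', _)` for
`v < v'`.  A pair of disjoint simplices `(σ, τ)` alternates and starts with `σ` if in the increasing
enumeration of `σ ∪ τ` the terms number 0, 2, 4, ... are in `σ` and the others in `τ`.
-/

namespace Pool.Agent.helper52.AD

open Finset
open scoped Classical

noncomputable section

variable {V : Type*} [LinearOrder V]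

/-- The order of the vertices of the octahedralization. -/
def lo (x y : V × Bool) : Prop := x.1 < y.1 ∨ (x.1 = y.1 ∧ x.2 = true ∧ y.2 = false)

/-- The number of elements of `σ` below `x`. -/
def bel (σ : Finset (V × Bool)) (x : V × Bool) : ℕ := (σ.filter fun y => lo y x).card

/-- The number of elements of `σ` with first coordinate below `v`. -/
def cnt (σ : Finset (V × Bool)) (v : V) : ℕ := (σ.filter fun y => y.1 < v).card

/-- The pair `(σ, τ)` alternates and starts with `σ`. -/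
def Alt (σ τ : Finset (V × Bool)) : Prop :=
  (∀ x ∈ σ, Even (bel σ x + bel τ x)) ∧ ∀ x ∈ τ, ¬ Even (bel σ x + bel τ x)

theorem bel_eq (σ : Finset (V × Bool)) (v : V) (ε : Bool) :
    bel σ (v, ε) = cnt σ v + if ε = false ∧ (v, true) ∈ σ then 1 else 0 := by
  unfold bel cnt
  split_ifs with h
  · obtain ⟨rfl, h⟩ := h
    have : (σ.filter fun y => lo y (v, false)) =
        insert (v, true) (σ.filter fun y => y.1 < v) := by
      ext ⟨w, b⟩
      simp only [Finset.mem_filter, Finset.mem_insert, lo, Prod.mk.injEq, and_true]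
      constructor
      · rintro ⟨h1, h2 | ⟨h2, h3⟩⟩
        · exact Or.inr ⟨h1, h2⟩
        · exact Or.inl ⟨h2, h3⟩
      · rintro (⟨rfl, rfl⟩ | ⟨h1, h2⟩)
        · exact ⟨h, Or.inr ⟨rfl, rfl⟩⟩
        · exact ⟨h1, Or.inl h2⟩
    rw [this, Finset.card_insert_of_notMem]
    simp
  · rw [add_zero]
    congr 1
    ext ⟨w, b⟩
    simp only [Finset.mem_filter, lo]
    constructor
    · rintro ⟨h1, h2 | ⟨h2, h3, h4⟩⟩
      · exact ⟨h1, h2⟩
      · subst h2 h3
        exact absurd ⟨h4, h1⟩ h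
    · rintro ⟨h1, h2⟩
      exact ⟨h1, Or.inl h2⟩

/-- The change of the sign of the vertex `v`. -/
def sw (v : V) (x : V × Bool) : V × Bool := if x.1 = v then (x.1, !x.2) else x

theorem sw_sw (v : V) (x : V × Bool) : sw v (sw v x) = x := by
  obtain ⟨w, b⟩ := x
  unfold sw
  by_cases h : w = v
  · simp [h]
  · simp [h]

theorem sw_fst (v : V) (x : V × Bool) : (sw v x).1 = x.1 := by
  unfold sw
  split_ifs <;> rfl

/-- The change of the sign of the vertex `v`, on finite sets. -/
def flip (v : V) (σ : Finset (V × Bool)) : Finset (V × Bool) := σ.image (sw v)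

theorem mem_flip {v : V} {σ : Finset (V × Bool)} {x : V × Bool} :
    x ∈ flip v σ ↔ sw v x ∈ σ := by
  rw [flip, Finset.mem_image]
  constructor
  · rintro ⟨y, hy, rfl⟩
    rwa [sw_sw]
  · intro h
    exact ⟨_, h, sw_sw v x⟩

theorem flip_flip (v : V) (σ : Finset (V × Bool)) : flip v (flip v σ) = σ := by
  ext x
  rw [mem_flip, mem_flip, sw_sw]

theorem mem_flip_self {v : V} {σ : Finset (V × Bool)} {b : Bool} :
    (v, b) ∈ flip v σ ↔ (v, !b) ∈ σ := by
  rw [mem_flip]
  simp [sw]

theorem mem_flip_ne {v w : V} (h : w ≠ v) {σ : Finset (V × Bool)} {b : Bool} :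
    (w, b) ∈ flip v σ ↔ (w, b) ∈ σ := by
  rw [mem_flip]
  simp [sw, h]

theorem pr_flip (v : V) (σ : Finset (V × Bool)) : pr (flip v σ) = pr σ := by
  ext w
  rw [mem_pr, mem_pr]
  by_cases h : w = v
  · subst h
    constructor
    · rintro ⟨b, hb⟩
      exact ⟨!b, mem_flip_self.1 hb⟩
    · rintro ⟨b, hb⟩
      exact ⟨!b, mem_flip_self.2 (by simpa using hb)⟩
  · simp only [mem_flip_ne h]

theorem isSx_iff {G : SimpleGraph V} {σ : Finset (V × Bool)} :
    IsSx G σ ↔ (∀ v a b, (v, a) ∈ σ → (v, b) ∈ σ → a = b) ∧ G.IsClique (pr σ : Set V) := by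
  constructor
  · intro h
    exact ⟨fun v a b h1 h2 => h.inj h1 h2, h.2⟩
  · rintro ⟨h1, h2⟩
    refine ⟨?_, h2⟩
    rintro ⟨v, a⟩ ha ⟨w, b⟩ hb hvw
    simp only at hvw
    subst hvw
    rw [h1 v a b (by exact_mod_cast ha) (by exact_mod_cast hb)]

theorem isSx_flip {G : SimpleGraph V} {σ : Finset (V × Bool)} (v : V) (h : IsSx G σ) :
    IsSx G (flip v σ) := by
  rw [isSx_iff, pr_flip]
  refine ⟨?_, h.2⟩
  intro w a b ha hb
  by_cases hw : w = v
  · subst hw
    rw [mem_flip_self] at ha hb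
    have := h.inj ha hb
    simpa using this
  · rw [mem_flip_ne hw] at ha hb
    exact h.inj ha hb

theorem disjoint_flip {σ τ : Finset (V × Bool)} (v : V) (h : Disjoint σ τ) :
    Disjoint (flip v σ) (flip v τ) := by
  rw [Finset.disjoint_left] at h ⊢
  intro x hx hx'
  rw [mem_flip] at hx hx'
  exact h hx hx'

theorem cnt_flip (v w : V) (σ : Finset (V × Bool)) : cnt (flip v σ) w = cnt σ w := by
  unfold cnt
  refine Finset.card_bij' (fun x _ => sw v x) (fun x _ => sw v x) ?_ ?_ ?_ ?_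
  · intro x hx
    rw [Finset.mem_filter, mem_flip] at hx
    rw [Finset.mem_filter, sw_fst]
    exact hx
  · intro x hx
    rw [Finset.mem_filter] at hx
    rw [Finset.mem_filter, sw_fst, mem_flip, sw_sw]
    exact hx
  · intro x _
    exact sw_sw v x
  · intro x _
    exact sw_sw v x

/-- A vertex which is not common to the projections. -/
theorem bel_add {G : SimpleGraph V} {σ τ : Finset (V × Bool)} (hσ : IsSx G σ) (hτ : IsSx G τ)
    {v : V} {ε : Bool} (h : v ∉ pr σ ∩ pr τ) (hx : (v, ε) ∈ σ ∨ (v, ε) ∈ τ) :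
    bel σ (v, ε) + bel τ (v, ε) = cnt σ v + cnt τ v := by
  rw [bel_eq, bel_eq]
  have h1 : ¬ (ε = false ∧ (v, true) ∈ σ) := by
    rintro ⟨rfl, h1⟩
    rcases hx with hx | hx
    · exact absurd (hσ.inj hx h1) (by decide)
    · exact h (Finset.mem_inter.2 ⟨mem_pr.2 ⟨_, h1⟩, mem_pr.2 ⟨_, hx⟩⟩)
  have h2 : ¬ (ε = false ∧ (v, true) ∈ τ) := by
    rintro ⟨rfl, h3⟩
    rcases hx with hx | hx
    · exact h (Finset.mem_inter.2 ⟨mem_pr.2 ⟨_, hx⟩, mem_pr.2 ⟨_, h3⟩⟩)
    · exact absurd (hτ.inj hx h3) (by decide)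
  rw [if_neg h1, if_neg h2]
  rfl

theorem bel_flip_ne {v w : V} (h : w ≠ v) (σ : Finset (V × Bool)) (b : Bool) :
    bel (flip v σ) (w, b) = bel σ (w, b) := by
  rw [bel_eq, bel_eq, cnt_flip]
  simp only [mem_flip_ne h]

theorem alt_flip {G : SimpleGraph V} {σ τ : Finset (V × Bool)} (hσ : IsSx G σ) (hτ : IsSx G τ)
    {v : V} (h : v ∉ pr σ ∩ pr τ) (ha : Alt σ τ) : Alt (flip v σ) (flip v τ) := by
  have h' : v ∉ pr (flip v σ) ∩ pr (flip v τ) := by
    rwa [pr_flip, pr_flip]
  refine ⟨?_, ?_⟩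
  · rintro ⟨w, b⟩ hx
    by_cases hw : w = v
    · subst hw
      rw [bel_add (isSx_flip w hσ) (isSx_flip w hτ) h' (Or.inl hx), cnt_flip, cnt_flip]
      rw [mem_flip_self] at hx
      have := ha.1 _ hx
      rwa [bel_add hσ hτ h (Or.inl hx)] at this
    · rw [bel_flip_ne hw, bel_flip_ne hw]
      exact ha.1 _ ((mem_flip_ne hw).1 hx)
  · rintro ⟨w, b⟩ hx
    by_cases hw : w = v
    · subst hw
      rw [bel_add (isSx_flip w hσ) (isSx_flip w hτ) h' (Or.inr hx), cnt_flip, cnt_flip]
      rw [mem_flip_self] at hx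
      have := ha.2 _ hx
      rwa [bel_add hσ hτ h (Or.inr hx)] at this
    · rw [bel_flip_ne hw, bel_flip_ne hw]
      exact ha.2 _ ((mem_flip_ne hw).1 hx)

/-- The simplex with all signs `ε`. -/
def cst (ε : Bool) (A : Finset V) : Finset (V × Bool) := A.image fun v => (v, ε)

theorem mem_cst {ε b : Bool} {A : Finset V} {v : V} : (v, b) ∈ cst ε A ↔ v ∈ A ∧ b = ε := by
  simp only [cst, Finset.mem_image, Prod.mk.injEq]
  constructor
  · rintro ⟨w, h1, rfl, rfl⟩
    exact ⟨h1, rfl⟩
  · rintro ⟨h1, rfl⟩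
    exact ⟨v, h1, rfl, rfl⟩

theorem pr_cst (ε : Bool) (A : Finset V) : pr (cst ε A) = A := by
  ext v
  rw [mem_pr]
  simp [mem_cst]

theorem isSx_cst {G : SimpleGraph V} (ε : Bool) {A : Finset V} (hA : G.IsClique (A : Set V)) :
    IsSx G (cst ε A) := by
  rw [isSx_iff, pr_cst]
  refine ⟨?_, hA⟩
  intro v a b ha hb
  rw [mem_cst] at ha hb
  rw [ha.2, hb.2]

theorem disjoint_cst (A : Finset V) : Disjoint (cst true A) (cst false A) := by
  rw [Finset.disjoint_left]
  rintro ⟨v, b⟩ h1 h2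
  rw [mem_cst] at h1 h2
  rw [h1.2] at h2
  exact absurd h2.2 (by decide)

theorem cnt_isSx {G : SimpleGraph V} {σ : Finset (V × Bool)} (h : IsSx G σ) (v : V) :
    cnt σ v = ((pr σ).filter fun w => w < v).card := by
  have : ((pr σ).filter fun w => w < v) = (σ.filter fun y => y.1 < v).image Prod.fst := by
    ext w
    simp only [Finset.mem_filter, Finset.mem_image, mem_pr]
    constructor
    · rintro ⟨⟨b, hb⟩, hw⟩
      exact ⟨(w, b), ⟨hb, hw⟩, rfl⟩
    · rintro ⟨⟨a, b⟩, ⟨h1, h2⟩, rfl⟩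
      exact ⟨⟨b, h1⟩, h2⟩
  rw [this, Finset.card_image_of_injOn]
  · rfl
  · refine h.1.mono ?_
    intro x hx
    rw [Finset.mem_coe, Finset.mem_filter] at hx
    exact hx.1

/-- Two complementary simplices which alternate are the two constant ones. -/
theorem eq_cst {G : SimpleGraph V} {σ τ : Finset (V × Bool)} (hσ : IsSx G σ) (hτ : IsSx G τ)
    (hd : Disjoint σ τ) {A : Finset V} (h1 : pr σ = A) (h2 : pr τ = A) (ha : Alt σ τ) :
    σ = cst true A ∧ τ = cst false A := by
  rw [Finset.disjoint_left] at hd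
  have hcnt : ∀ v, cnt σ v = cnt τ v := by
    intro v
    rw [cnt_isSx hσ, cnt_isSx hτ, h1, h2]
  have key : ∀ v b, (v, b) ∈ σ → b = true := by
    intro v b hb
    by_contra hne
    have hb' : b = false := by simpa using hne
    subst hb'
    have hv : v ∈ pr τ := by
      rw [h2, ← h1]
      exact mem_pr.2 ⟨_, hb⟩
    obtain ⟨c, hc⟩ := mem_pr.1 hv
    have hc' : c = true := by
      by_contra hne'
      have : c = false := by simpa using hne'
      subst this
      exact hd hb hc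
    subst hc'
    have := ha.1 _ hb
    rw [bel_eq, bel_eq, if_neg, if_pos ⟨rfl, hc⟩, hcnt] at this
    · rw [add_zero, ← add_assoc] at this
      have h3 : Even (cnt τ v + cnt τ v) := ⟨_, rfl⟩
      rw [Nat.even_add_one] at this
      exact this h3
    · rintro ⟨-, h3⟩
      exact absurd (hσ.inj hb h3) (by decide)
  have key2 : ∀ v b, (v, b) ∈ τ → b = false := by
    intro v b hb
    by_contra hne
    have hb' : b = true := by simpa using hne
    subst hb'
    have hv : v ∈ pr σ := by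
      rw [h1, ← h2]
      exact mem_pr.2 ⟨_, hb⟩
    obtain ⟨c, hc⟩ := mem_pr.1 hv
    have := key _ _ hc
    subst this
    exact hd hc hb
  constructor
  · ext ⟨v, b⟩
    rw [mem_cst]
    constructor
    · intro h
      refine ⟨?_, key _ _ h⟩
      rw [← h1]
      exact mem_pr.2 ⟨_, h⟩
    · rintro ⟨h, rfl⟩
      rw [← h1] at h
      obtain ⟨c, hc⟩ := mem_pr.1 h
      have := key _ _ hc
      subst this
      exact hc
  · ext ⟨v, b⟩
    rw [mem_cst]
    constructor
    · intro h
      refine ⟨?_, key2 _ _ h⟩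
      rw [← h2]
      exact mem_pr.2 ⟨_, h⟩
    · rintro ⟨h, rfl⟩
      rw [← h2] at h
      obtain ⟨c, hc⟩ := mem_pr.1 h
      have := key2 _ _ hc
      subst this
      exact hc

theorem alt_cst (A : Finset V) : Alt (cst true A) (cst false A) := by
  have hc : ∀ v, cnt (cst true A) v = cnt (cst false A) v := by
    intro v
    unfold cnt cst
    rw [Finset.filter_image, Finset.filter_image, Finset.card_image_of_injective,
      Finset.card_image_of_injective]
    · intro a b h
      exact congrArg Prod.fst h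
    · intro a b h
      exact congrArg Prod.fst h
  refine ⟨?_, ?_⟩
  · rintro ⟨v, b⟩ h
    rw [mem_cst] at h
    obtain ⟨h1, rfl⟩ := h
    rw [bel_eq, bel_eq, if_neg (by simp), if_neg (by simp), hc]
    exact ⟨_, rfl⟩
  · rintro ⟨v, b⟩ h
    rw [mem_cst] at h
    obtain ⟨h1, rfl⟩ := h
    rw [bel_eq, bel_eq, if_pos ⟨rfl, mem_cst.2 ⟨h1, rfl⟩⟩, if_neg, hc]
    · rw [add_zero, add_assoc, add_comm 1, ← add_assoc, Nat.even_add_one, not_not]
      exact ⟨_, rfl⟩
    · rintro ⟨-, h⟩
      rw [mem_cst] at h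
      exact absurd h.2 (by decide)

end

end Pool.Agent.helper52.AD
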