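import Mathlib

/-!
# Chains and cochains mod 2 of a finite flag complex, and the extension of a top cocycle

`G` is a finite graph on `V`; the simplices of the flag complex `L` are the finite cliques.  A chain
(or cochain) is a function `Finset V → ZMod 2`; `IsChain G k z` says that `z` is supported on cliques
with `k` vertices (dimension `k - 1`).
-/

namespace Pool.Agent.helper52.AD

open Finset
open scoped Classical

noncomputable section

variable {V : Type*} [Fintype V] [DecidableEq V]

/-- The boundary of a chain. -/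
def bd (z : Finset V → ZMod 2) : Finset V → ZMod 2 :=
  fun ρ => ∑ w ∈ univ \ ρ, z (insert w ρ)

omit [Fintype V] in
/-- The coboundary of a cochain. -/
def cobd (c : Finset V → ZMod 2) : Finset V → ZMod 2 :=
  fun A => ∑ v ∈ A, c (A.erase v)

/-- `z` is a chain of the flag complex of `G` supported on cliques with `k` vertices. -/
def IsChain (G : SimpleGraph V) (k : ℕ) (z : Finset V → ZMod 2) : Prop :=
  ∀ A, z A ≠ 0 → G.IsClique (A : Set V) ∧ A.card = k

/-- The reduced homology of the flag complex of `G` with coefficients in the field with two elements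
does not vanish in the dimension `k - 1` of the simplices with `k` vertices. -/
def HasHom (G : SimpleGraph V) (k : ℕ) : Prop :=
  ∃ z, IsChain G k z ∧ bd z = 0 ∧ ∀ w, IsChain G (k + 1) w → bd w ≠ z

theorem z2 (a : ZMod 2) (h : a ≠ 0) : a = 1 := by
  revert a
  decide

theorem z2_add_self (a : ZMod 2) : a + a = 0 := CharTwo.add_self_eq_zero a

/-- Adjointness of `bd` and `cobd`. -/
theorem adj (z c : Finset V → ZMod 2) :
    ∑ ρ, bd z ρ * c ρ = ∑ A, z A * cobd c A := by
  have h1 : ∑ ρ, bd z ρ * c ρ =
      ∑ p ∈ (univ : Finset (Finset V)).sigma (fun ρ => (univ \ ρ : Finset V)),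
        z (insert p.2 p.1) * c p.1 := by
    rw [Finset.sum_sigma]
    refine Finset.sum_congr rfl fun ρ _ => ?_
    rw [bd, Finset.sum_mul]
  have h2 : ∑ A, z A * cobd c A =
      ∑ p ∈ (univ : Finset (Finset V)).sigma (fun A => A), z p.1 * c (p.1.erase p.2) := by
    rw [Finset.sum_sigma]
    refine Finset.sum_congr rfl fun ρ _ => ?_
    rw [cobd, Finset.mul_sum]
  rw [h1, h2]
  refine Finset.sum_bij' (fun p _ => ⟨insert p.2 p.1, p.2⟩) (fun p _ => ⟨p.1.erase p.2, p.2⟩)
    ?_ ?_ ?_ ?_ ?_
  · rintro ⟨ρ, w⟩ h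
    simp
  · rintro ⟨A, v⟩ h
    simp
  · rintro ⟨ρ, w⟩ h
    simp only [mem_sigma, mem_univ, mem_sdiff, true_and] at h
    simp [Finset.erase_insert h]
  · rintro ⟨A, v⟩ h
    simp only [mem_sigma, mem_univ, true_and] at h
    simp [Finset.insert_erase h]
  · rintro ⟨ρ, w⟩ h
    simp only [mem_sigma, mem_univ, mem_sdiff, true_and] at h
    simp [Finset.erase_insert h]

/-- `bd` as a linear map. -/
def bdL : (Finset V → ZMod 2) →ₗ[ZMod 2] (Finset V → ZMod 2) where
  toFun := bd
  map_add' a b := by
    funext ρ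
    simp [bd, Finset.sum_add_distrib]
  map_smul' a b := by
    funext ρ
    simp only [bd, Pi.smul_apply, smul_eq_mul, RingHom.id_apply, Finset.mul_sum]

theorem bdL_apply (z : Finset V → ZMod 2) : bdL z = bd z := rfl

/-- The subspace of chains. -/
def chainSub (G : SimpleGraph V) (k : ℕ) : Submodule (ZMod 2) (Finset V → ZMod 2) where
  carrier := {z | IsChain G k z}
  add_mem' := by
    intro a b ha hb A h
    by_cases h1 : a A = 0
    · by_cases h2 : b A = 0
      · exact absurd (by simp [h1, h2]) h
      · exact hb A h2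
    · exact ha A h1
  zero_mem' := by
    intro A h
    exact absurd rfl h
  smul_mem' := by
    intro c a ha A h
    refine ha A fun h1 => h ?_
    simp [h1]

omit [Fintype V] in
theorem mem_chainSub {G : SimpleGraph V} {k : ℕ} {z : Finset V → ZMod 2} :
    z ∈ chainSub G k ↔ IsChain G k z := Iff.rfl

theorem lin_apply (f : (Finset V → ZMod 2) →ₗ[ZMod 2] ZMod 2) (z : Finset V → ZMod 2) :
    f z = ∑ A, z A * f (Pi.single A 1) := by
  rw [LinearMap.pi_apply_eq_sum_univ f z]
  refine Finset.sum_congr rfl fun A _ => ?_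
  rw [smul_eq_mul]
  congr 2
  funext j
  simp [Pi.single_apply, eq_comm]

omit [Fintype V] in
theorem isChain_single {G : SimpleGraph V} {k : ℕ} {A : Finset V} (hA : G.IsClique (A : Set V))
    (hk : A.card = k) : IsChain G k (Pi.single A 1) := by
  intro B hB
  have : B = A := by
    by_contra h
    exact hB (by simp [h])
  rw [this]
  exact ⟨hA, hk⟩

theorem sum_single_mul (A : Finset V) (c : Finset V → ZMod 2) :
    ∑ B, (Pi.single A (1 : ZMod 2) : Finset V → ZMod 2) B * c B = c A := by
  rw [Finset.sum_eq_single A]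
  · simp
  · intro B _ h
    simp [h]
  · simp

/-- Duality, degree of the class. -/
theorem exists_cocycle {G : SimpleGraph V} {k : ℕ} {z : Finset V → ZMod 2}
    (hnb : ∀ w, IsChain G (k + 1) w → bd w ≠ z) :
    ∃ c : Finset V → ZMod 2, ∑ A, z A * c A = 1 ∧
      ∀ A : Finset V, G.IsClique (A : Set V) → A.card = k + 1 → cobd c A = 0 := by
  have hz : z ∉ (chainSub G (k + 1)).map bdL := by
    rintro ⟨w, hw, h⟩
    exact hnb w hw h
  obtain ⟨f, hf, hp⟩ := Submodule.exists_le_ker_of_notMem hz
  refine ⟨fun A => f (Pi.single A 1), ?_, ?_⟩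
  · rw [← lin_apply]
    exact z2 _ hf
  · intro A hA hk
    have h1 : bdL (Pi.single A (1 : ZMod 2)) ∈ (chainSub G (k + 1)).map bdL :=
      Submodule.mem_map_of_mem (isChain_single hA hk)
    have h2 := hp h1
    rw [LinearMap.mem_ker, lin_apply, bdL_apply, adj, sum_single_mul] at h2
    exact h2

/-- Duality, degrees with vanishing homology. -/
theorem exists_primitive {G : SimpleGraph V} {m : ℕ}
    (hm : ∀ z, IsChain G m z → bd z = 0 → ∃ w, IsChain G (m + 1) w ∧ bd w = z)
    (c : Finset V → ZMod 2)
    (hc : ∀ A : Finset V, G.IsClique (A : Set V) → A.card = m + 1 → cobd c A = 0) :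
    ∃ b : Finset V → ZMod 2, ∀ A : Finset V, G.IsClique (A : Set V) → A.card = m →
      cobd b A = c A := by
  let f : chainSub G m →ₗ[ZMod 2] (Finset V → ZMod 2) := bdL.domRestrict (chainSub G m)
  let φ0 : (Finset V → ZMod 2) →ₗ[ZMod 2] ZMod 2 :=
    { toFun := fun z => ∑ A, z A * c A
      map_add' := by
        intro a b
        simp [add_mul, Finset.sum_add_distrib]
      map_smul' := by
        intro a b
        simp [Finset.mul_sum, mul_assoc] }
  let φ : Module.Dual (ZMod 2) (chainSub G m) := φ0.domRestrict (chainSub G m)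
  have hφ : φ ∈ (LinearMap.ker f).dualAnnihilator := by
    rw [Submodule.mem_dualAnnihilator]
    rintro ⟨z, hz⟩ hk
    have hk' : bd z = 0 := by simpa [f, bdL_apply] using hk
    obtain ⟨w, hw, hwz⟩ := hm z hz hk'
    change ∑ A, z A * c A = 0
    rw [← hwz, adj]
    refine Finset.sum_eq_zero fun A _ => ?_
    by_cases h : w A = 0
    · rw [h, zero_mul]
    · rw [hc A (hw A h).1 (hw A h).2, mul_zero]
  rw [← LinearMap.range_dualMap_eq_dualAnnihilator_ker] at hφ
  obtain ⟨b', hb'⟩ := hφ
  refine ⟨fun A => b' (Pi.single A 1), ?_⟩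
  intro A hA hk
  have h1 := congrArg (fun g => g (⟨Pi.single A 1, isChain_single hA hk⟩ : chainSub G m)) hb'
  have h2 : b' (bd (Pi.single A (1 : ZMod 2))) =
      ∑ B, (Pi.single A (1 : ZMod 2) : Finset V → ZMod 2) B * c B := h1
  rw [lin_apply, adj, sum_single_mul, sum_single_mul] at h2
  exact h2

omit [Fintype V] in
theorem ssum_eq_cobd (c : Finset V → ZMod 2) (A : Finset V)
    (h : ∀ B, B ⊂ A → B.card + 1 ≠ A.card → c B = 0) :
    ∑ B ∈ A.ssubsets, c B = cobd c A := by
  have h1 : cobd c A = ∑ B ∈ A.image (fun v => A.erase v), c B := by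
    rw [Finset.sum_image]
    · rfl
    · intro v hv w hw hvw
      by_contra hne
      have : v ∈ A.erase w := Finset.mem_erase.2 ⟨hne, hv⟩
      simp only at hvw
      rw [← hvw] at this
      simp at this
  rw [h1]
  symm
  refine Finset.sum_subset ?_ ?_
  · intro B hB
    obtain ⟨v, hv, rfl⟩ := Finset.mem_image.1 hB
    rw [Finset.mem_ssubsets]
    exact Finset.erase_ssubset hv
  · intro B hB hB'
    rw [Finset.mem_ssubsets] at hB
    refine h B hB fun hcard => hB' ?_
    obtain ⟨v, hv, hvB⟩ := Finset.exists_of_ssubset hB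
    refine Finset.mem_image.2 ⟨v, hv, ?_⟩
    symm
    refine Finset.eq_of_subset_of_card_le ?_ ?_
    · intro x hx
      rw [Finset.mem_erase]
      refine ⟨?_, hB.1 hx⟩
      rintro rfl
      exact hvB hx
    · rw [Finset.card_erase_of_mem hv]
      omega

theorem cast_two_pow_sub_two (n : ℕ) (hn : 1 ≤ n) : ((2 ^ n - 2 : ℕ) : ZMod 2) = 0 := by
  obtain ⟨m, rfl⟩ : ∃ m, n = m + 1 := ⟨n - 1, by omega⟩
  have : 2 ^ (m + 1) - 2 = 2 * (2 ^ m - 1) := by
    rw [pow_succ]
    omega
  rw [this]
  push_cast
  have h2 : (2 : ZMod 2) = 0 := rfl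
  rw [h2, zero_mul]

theorem cast_two_pow_sub_one (n : ℕ) (hn : 1 ≤ n) : ((2 ^ n - 1 : ℕ) : ZMod 2) = 1 := by
  obtain ⟨m, rfl⟩ : ∃ m, n = m + 1 := ⟨n - 1, by omega⟩
  have h1 : 2 ^ (m + 1) - 1 = 2 * (2 ^ m - 1) + 1 := by
    have := Nat.one_le_two_pow (n := m)
    rw [pow_succ]
    omega
  rw [h1]
  push_cast
  have h2 : (2 : ZMod 2) = 0 := rfl
  rw [h2, zero_mul, zero_add]

omit [Fintype V] in
/-- The operator `f ↦ (A ↦ ∑_{B ⊂ A} f B)` has square zero mod 2. -/
theorem ssum_ssum (f : Finset V → ZMod 2) (A : Finset V) :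
    ∑ B ∈ A.ssubsets, ∑ C ∈ B.ssubsets, f C = 0 := by
  have h1 : ∑ B ∈ A.ssubsets, ∑ C ∈ B.ssubsets, f C =
      ∑ C ∈ A.ssubsets, ∑ B ∈ Finset.Ioo C A, f C := by
    refine Finset.sum_comm' ?_
    intro B C
    simp only [Finset.mem_ssubsets, Finset.mem_Ioo]
    constructor
    · rintro ⟨h1, h2⟩
      exact ⟨⟨h2, h1⟩, h2.trans h1⟩
    · rintro ⟨⟨h1, h2⟩, h3⟩
      exact ⟨h2, h1⟩
  rw [h1]
  refine Finset.sum_eq_zero fun C hC => ?_
  rw [Finset.mem_ssubsets] at hC
  rw [Finset.sum_const, Finset.card_Ioo_finset hC.1, nsmul_eq_mul, cast_two_pow_sub_two, zero_mul]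
  have := Finset.card_lt_card hC
  omega

/-- The extension of a cocycle `ζ` on cliques with `k` vertices to a function `F` on finite sets with
`∑_{B ⊂ A} F B = 0` for every clique `A`. -/
theorem exists_extension {G : SimpleGraph V} {k : ℕ} (ζ : Finset V → ZMod 2)
    (hζ : ∀ A : Finset V, G.IsClique (A : Set V) → A.card = k + 1 → cobd ζ A = 0)
    (hex : ∀ m, k + 2 ≤ m → ∀ z, IsChain G m z → bd z = 0 → ∃ w, IsChain G (m + 1) w ∧ bd w = z) :
    ∃ F : Finset V → ZMod 2, (∀ A : Finset V, A.card < k → F A = 0) ∧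
      (∀ A : Finset V, A.card = k → F A = ζ A) ∧
      ∀ A : Finset V, G.IsClique (A : Set V) → ∑ B ∈ A.ssubsets, F B = 0 := by
  have key : ∀ m, k ≤ m → ∃ F : Finset V → ZMod 2, (∀ A : Finset V, A.card < k → F A = 0) ∧
      (∀ A : Finset V, A.card = k → F A = ζ A) ∧
      (∀ A : Finset V, m < A.card → F A = 0) ∧
      ∀ A : Finset V, G.IsClique (A : Set V) → A.card ≤ m + 1 →
        ∑ B ∈ A.ssubsets, F B = 0 := by
    intro m hm
    induction m, hm using Nat.le_induction with
    | base =>
      refine ⟨fun A => if A.card = k then ζ A else 0, ?_, ?_, ?_, ?_⟩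
      · intro A hA
        dsimp only
        rw [if_neg (by omega)]
      · intro A hA
        dsimp only
        rw [if_pos hA]
      · intro A hA
        dsimp only
        rw [if_neg (by omega)]
      · intro A hA hc
        by_cases h : A.card = k + 1
        · rw [ssum_eq_cobd]
          · rw [← hζ A hA h]
            refine Finset.sum_congr rfl fun v hv => ?_
            dsimp only
            rw [if_pos]
            rw [Finset.card_erase_of_mem hv]
            omega
          · intro B hB hB'
            rw [if_neg (by omega)]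
        · refine Finset.sum_eq_zero fun B hB => ?_
          rw [Finset.mem_ssubsets] at hB
          have := Finset.card_lt_card hB
          rw [if_neg (by omega)]
    | succ m hm ih =>
      obtain ⟨F, h1, h2, h3, h4⟩ := ih
      have hg : ∀ A : Finset V, G.IsClique (A : Set V) → A.card = m + 2 + 1 →
          cobd (fun B => ∑ C ∈ B.ssubsets, F C) A = 0 := by
        intro A hA hc
        rw [← ssum_eq_cobd]
        · exact ssum_ssum F A
        · intro B hB hB'
          have := Finset.card_lt_card hB
          refine h4 B (hA.subset (Finset.coe_subset.2 hB.1)) (by omega)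
      obtain ⟨b, hb⟩ := exists_primitive (hex (m + 2) (by omega)) _ hg
      refine ⟨fun A => F A + if A.card = m + 1 then b A else 0, ?_, ?_, ?_, ?_⟩
      · intro A hA
        dsimp only
        rw [if_neg (by omega), h1 A hA, add_zero]
      · intro A hA
        dsimp only
        rw [if_neg (by omega), h2 A hA, add_zero]
      · intro A hA
        dsimp only
        rw [if_neg (by omega), h3 A (by omega), add_zero]
      · intro A hA hc
        rw [Finset.sum_add_distrib]
        by_cases h : A.card = m + 2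
        · have e1 := hb A hA h
          have e2 : ∑ B ∈ A.ssubsets, (if B.card = m + 1 then b B else 0) = cobd b A := by
            rw [ssum_eq_cobd]
            · refine Finset.sum_congr rfl fun v hv => ?_
              dsimp only
              rw [if_pos]
              rw [Finset.card_erase_of_mem hv]
              omega
            · intro B hB hB'
              rw [if_neg (by omega)]
          rw [e2, e1]
          exact z2_add_self _
        · rw [h4 A hA (by omega), zero_add]
          refine Finset.sum_eq_zero fun B hB => ?_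
          rw [Finset.mem_ssubsets] at hB
          have := Finset.card_lt_card hB
          rw [if_neg (by omega)]
  obtain ⟨F, h1, h2, h3, h4⟩ := key (max k (Fintype.card V)) (le_max_left _ _)
  refine ⟨F, h1, h2, fun A hA => h4 A hA ?_⟩
  have := Finset.card_le_univ A
  have := le_max_right k (Fintype.card V)
  omega

/-- The top degree with nonvanishing reduced homology. -/
theorem exists_top {G : SimpleGraph V} {k : ℕ} (h : HasHom G k) :
    ∃ n, k ≤ n ∧ HasHom G n ∧ ∀ m, n + 1 ≤ m → ∀ z, IsChain G m z → bd z = 0 →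
      ∃ w, IsChain G (m + 1) w ∧ bd w = z := by
  have hb : ∀ n, HasHom G n → n ≤ Fintype.card V := by
    rintro n ⟨z, hz, -, hnb⟩
    have : ∃ A, z A ≠ 0 := by
      by_contra hc
      push Not at hc
      refine hnb 0 (fun A hA => absurd rfl hA) ?_
      funext A
      rw [hc A]
      simp [bd]
    obtain ⟨A, hA⟩ := this
    rw [← (hz A hA).2]
    exact Finset.card_le_univ A
  refine ⟨Nat.findGreatest (HasHom G) (Fintype.card V), ?_, ?_, ?_⟩
  · exact Nat.le_findGreatest (hb k h) h
  · exact Nat.findGreatest_spec (hb k h) h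
  · intro m hm z hz hbz
    by_contra hc
    push Not at hc
    have hmm : HasHom G m := ⟨z, hz, hbz, hc⟩
    have := Nat.le_findGreatest (hb m hmm) hmm
    omega

end

end Pool.Agent.helper52.AD
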