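import Pool.Agent.helper52.AD.Chains

/-!
# The local functions `Λ`

`F` is a function on finite sets of vertices with `∑_{B ⊂ A} F B = 0` for all cliques `A`.
-/

namespace Pool.Agent.helper52.AD

open Finset
open scoped Classical

noncomputable section

variable {V : Type*} [LinearOrder V] (G : SimpleGraph V)

/-- The vertices of `A` which are not adjacent to all other vertices of `A`. -/
def NI (A : Finset V) : Finset V := A.filter fun v => ∃ w ∈ A, w ≠ v ∧ ¬ G.Adj v w

variable {G}

theorem mem_NI {A : Finset V} {v : V} :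
    v ∈ NI G A ↔ v ∈ A ∧ ∃ w ∈ A, w ≠ v ∧ ¬ G.Adj v w := by
  simp [NI]

theorem NI_subset (A : Finset V) : NI G A ⊆ A := Finset.filter_subset _ _

theorem NI_mono {A B : Finset V} (h : B ⊆ A) : NI G B ⊆ NI G A := by
  intro v hv
  rw [mem_NI] at hv ⊢
  obtain ⟨h1, w, h2, h3⟩ := hv
  exact ⟨h h1, w, h h2, h3⟩

theorem NI_eq_empty {A : Finset V} (hA : G.IsClique (A : Set V)) : NI G A = ∅ := by
  rw [Finset.eq_empty_iff_forall_notMem]
  intro v hv
  rw [mem_NI] at hv
  obtain ⟨h1, w, h2, h3, h4⟩ := hv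
  exact h4 (hA (by exact_mod_cast h1) (by exact_mod_cast h2) (Ne.symm h3))

theorem isClique_of_NI {A : Finset V} (hA : NI G A = ∅) : G.IsClique (A : Set V) := by
  intro v hv w hw hvw
  by_contra hn
  have : v ∈ NI G A := mem_NI.2 ⟨by exact_mod_cast hv, w, by exact_mod_cast hw, hvw.symm, hn⟩
  rw [hA] at this
  simp at this

variable (G) in
/-- The recursive function `y`. -/
def yy (F : Finset V → ZMod 2) (A X : Finset V) : ZMod 2 :=
  if h : (NI G A).Nonempty then
    (if (NI G A).min' h ∈ X then 0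
      else ∑ B : {B // B ∈ A.ssubsets}, yy F B.1 (NI G B.1 \ X))
  else F A
termination_by A.card
decreasing_by exact Finset.card_lt_card (Finset.mem_ssubsets.1 B.2)

theorem yy_clique (F : Finset V → ZMod 2) {A : Finset V} (X : Finset V)
    (hA : G.IsClique (A : Set V)) : yy G F A X = F A := by
  rw [yy, dif_neg]
  rw [NI_eq_empty hA]
  simp

theorem yy_mem (F : Finset V → ZMod 2) {A X : Finset V} (h : (NI G A).Nonempty)
    (hX : (NI G A).min' h ∈ X) : yy G F A X = 0 := by
  rw [yy, dif_pos h, if_pos hX]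

theorem yy_notMem (F : Finset V → ZMod 2) {A X : Finset V} (h : (NI G A).Nonempty)
    (hX : (NI G A).min' h ∉ X) : yy G F A X = ∑ B ∈ A.ssubsets, yy G F B (NI G B \ X) := by
  rw [yy, dif_pos h, if_neg hX]
  exact Finset.sum_coe_sort A.ssubsets (fun B => yy G F B (NI G B \ X))

/-- `yy F A X` depends only on `NI A ∩ X`. -/
theorem yy_congr (F : Finset V → ZMod 2) {A X X' : Finset V}
    (h : ∀ v ∈ NI G A, (v ∈ X ↔ v ∈ X')) : yy G F A X = yy G F A X' := by
  by_cases hn : (NI G A).Nonempty
  · have h1 := h _ ((NI G A).min'_mem hn)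
    by_cases hX : (NI G A).min' hn ∈ X
    · rw [yy_mem F hn hX, yy_mem F hn (h1.1 hX)]
    · rw [yy_notMem F hn hX, yy_notMem F hn (fun h2 => hX (h1.2 h2))]
      refine Finset.sum_congr rfl fun B hB => ?_
      congr 1
      ext v
      simp only [Finset.mem_sdiff]
      constructor
      · rintro ⟨h2, h3⟩
        exact ⟨h2, fun h4 => h3 ((h v (NI_mono (Finset.mem_ssubsets.1 hB).1 h2)).2 h4)⟩
      · rintro ⟨h2, h3⟩
        exact ⟨h2, fun h4 => h3 ((h v (NI_mono (Finset.mem_ssubsets.1 hB).1 h2)).1 h4)⟩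
  · rw [Finset.not_nonempty_iff_eq_empty] at hn
    rw [yy_clique F X (isClique_of_NI hn), yy_clique F X' (isClique_of_NI hn)]

/-- The swap formula for `yy`. -/
theorem yy_swap {F : Finset V → ZMod 2}
    (hF : ∀ A : Finset V, G.IsClique (A : Set V) → ∑ B ∈ A.ssubsets, F B = 0)
    (A X : Finset V) : yy G F A X = ∑ B ∈ A.powerset, yy G F B (NI G B \ X) := by
  induction A using Finset.strongInduction generalizing X with
  | H A ih =>
    have hpow : ∀ f : Finset V → ZMod 2, ∑ B ∈ A.powerset, f B = f A + ∑ B ∈ A.ssubsets, f B := by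
      intro f
      rw [Finset.ssubsets, Finset.add_sum_erase _ _ (Finset.mem_powerset_self A)]
    rw [hpow]
    by_cases hn : (NI G A).Nonempty
    · by_cases hX : (NI G A).min' hn ∈ X
      · rw [yy_mem F hn hX]
        have hX' : (NI G A).min' hn ∉ NI G A \ X := by
          simp [hX]
        rw [yy_notMem F hn hX']
        have h1 : ∑ B ∈ A.ssubsets, yy G F B (NI G B \ (NI G A \ X)) =
            ∑ B ∈ A.ssubsets, ∑ C ∈ B.powerset, yy G F C (NI G C \ X) := by
          refine Finset.sum_congr rfl fun B hB => ?_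
          rw [Finset.mem_ssubsets] at hB
          rw [← ih B hB X]
          refine yy_congr F fun v hv => ?_
          have hvA := NI_mono hB.1 hv
          simp only [Finset.mem_sdiff, hv, hvA, true_and, not_not]
        have h2 : ∑ B ∈ A.ssubsets, ∑ C ∈ B.powerset, yy G F C (NI G C \ X) =
            ∑ C ∈ A.ssubsets, ∑ B ∈ Finset.Ico C A, yy G F C (NI G C \ X) := by
          refine Finset.sum_comm' ?_
          intro B C
          simp only [Finset.mem_ssubsets, Finset.mem_Ico, Finset.mem_powerset]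
          constructor
          · rintro ⟨h1, h2⟩
            exact ⟨⟨h2, h1⟩, lt_of_le_of_lt h2 h1⟩
          · rintro ⟨⟨h1, h2⟩, h3⟩
            exact ⟨h2, h1⟩
        have h3 : ∑ C ∈ A.ssubsets, ∑ B ∈ Finset.Ico C A, yy G F C (NI G C \ X) =
            ∑ C ∈ A.ssubsets, yy G F C (NI G C \ X) := by
          refine Finset.sum_congr rfl fun C hC => ?_
          rw [Finset.mem_ssubsets] at hC
          rw [Finset.sum_const, Finset.card_Ico_finset hC.1, nsmul_eq_mul, cast_two_pow_sub_one,
            one_mul]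
          have := Finset.card_lt_card hC
          omega
        rw [h1, h2, h3]
        exact (z2_add_self _).symm
      · rw [yy_notMem F hn hX]
        have hX' : (NI G A).min' hn ∈ NI G A \ X := by
          simp [hX, Finset.min'_mem]
        rw [yy_mem F hn hX', zero_add]
    · rw [Finset.not_nonempty_iff_eq_empty] at hn
      have hA := isClique_of_NI hn
      rw [yy_clique F X hA, yy_clique F _ hA]
      have : ∑ B ∈ A.ssubsets, yy G F B (NI G B \ X) = ∑ B ∈ A.ssubsets, F B := by
        refine Finset.sum_congr rfl fun B hB => ?_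
        exact yy_clique F _ (hA.subset (Finset.coe_subset.2 (Finset.mem_ssubsets.1 hB).1))
      rw [this, hF A hA, add_zero]

variable (G) in
/-- The function `Λ`. -/
def Lam (F : Finset V → ZMod 2) (s t P : Finset V) : ZMod 2 :=
  ∑ A ∈ (s ∪ t).powerset.filter (fun A => P ⊆ A), yy G F A s

/-- A vertex of two cliques `s`, `t` is adjacent to all other vertices of `s ∪ t`. -/
theorem notMem_NI {s t A : Finset V} (hs : G.IsClique (s : Set V)) (ht : G.IsClique (t : Set V))
    (hA : A ⊆ s ∪ t) {v : V} (h1 : v ∈ s) (h2 : v ∈ t) : v ∉ NI G A := by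
  rw [mem_NI]
  rintro ⟨-, w, hw, hwv, hn⟩
  rcases Finset.mem_union.1 (hA hw) with h | h
  · exact hn (hs (by exact_mod_cast h1) (by exact_mod_cast h) hwv.symm)
  · exact hn (ht (by exact_mod_cast h2) (by exact_mod_cast h) hwv.symm)

/-- The swap formula for `Λ`. -/
theorem Lam_swap {F : Finset V → ZMod 2}
    (hF : ∀ A : Finset V, G.IsClique (A : Set V) → ∑ B ∈ A.ssubsets, F B = 0)
    {s t P : Finset V} (hs : G.IsClique (s : Set V)) (ht : G.IsClique (t : Set V))
    (hP : P ⊆ s ∪ t) : Lam G F s t P = Lam G F t s ((s ∪ t) \ P) := by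
  have h1 : Lam G F s t P =
      ∑ A ∈ (s ∪ t).powerset.filter (fun A => P ⊆ A), ∑ B ∈ A.powerset, yy G F B t := by
    refine Finset.sum_congr rfl fun A hA => ?_
    rw [Finset.mem_filter, Finset.mem_powerset] at hA
    rw [yy_swap hF]
    refine Finset.sum_congr rfl fun B hB => ?_
    rw [Finset.mem_powerset] at hB
    refine yy_congr F fun v hv => ?_
    rw [Finset.mem_sdiff]
    have hBS := hB.trans hA.1
    have hvS := hBS (NI_subset B hv)
    constructor
    · rintro ⟨-, h⟩
      exact (Finset.mem_union.1 hvS).resolve_left h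
    · intro h
      exact ⟨hv, fun h' => notMem_NI hs ht hBS h' h hv⟩
  have h2 : ∑ A ∈ (s ∪ t).powerset.filter (fun A => P ⊆ A), ∑ B ∈ A.powerset, yy G F B t =
      ∑ B ∈ (s ∪ t).powerset, ∑ A ∈ Finset.Icc (P ∪ B) (s ∪ t), yy G F B t := by
    refine Finset.sum_comm' ?_
    intro A B
    simp only [Finset.mem_filter, Finset.mem_powerset, Finset.mem_Icc]
    constructor
    · rintro ⟨⟨h1, h2⟩, h3⟩
      exact ⟨⟨Finset.union_subset h2 h3, h1⟩, h3.trans h1⟩
    · rintro ⟨⟨h1, h2⟩, h3⟩
      exact ⟨⟨h2, Finset.union_subset_left h1⟩, Finset.union_subset_right h1⟩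
  rw [h1, h2]
  have h3 : ∀ B ∈ (s ∪ t).powerset, ∑ A ∈ Finset.Icc (P ∪ B) (s ∪ t), yy G F B t =
      if (s ∪ t) \ P ⊆ B then yy G F B t else 0 := by
    intro B hB
    rw [Finset.mem_powerset] at hB
    have hPB : P ∪ B ⊆ s ∪ t := Finset.union_subset hP hB
    rw [Finset.sum_const, Finset.card_Icc_finset hPB, nsmul_eq_mul]
    split_ifs with h
    · have : P ∪ B = s ∪ t := by
        refine Finset.Subset.antisymm hPB ?_
        intro v hv
        rw [Finset.mem_union]
        by_cases hvP : v ∈ P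
        · exact Or.inl hvP
        · exact Or.inr (h (Finset.mem_sdiff.2 ⟨hv, hvP⟩))
      rw [this, Nat.sub_self, pow_zero, Nat.cast_one, one_mul]
    · have : (P ∪ B).card < (s ∪ t).card := by
        refine Finset.card_lt_card ⟨hPB, fun h' => h ?_⟩
        intro v hv
        rw [Finset.mem_sdiff] at hv
        exact (Finset.mem_union.1 (h' hv.1)).resolve_left hv.2
      obtain ⟨m, hm⟩ : ∃ m, (s ∪ t).card - (P ∪ B).card = m + 1 :=
        ⟨(s ∪ t).card - (P ∪ B).card - 1, by omega⟩
      rw [hm, pow_succ]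
      push_cast
      have h2 : (2 : ZMod 2) = 0 := rfl
      rw [h2, mul_zero, zero_mul]
  rw [Finset.sum_congr rfl h3, ← Finset.sum_filter, Lam, Finset.union_comm t s]

end

end Pool.Agent.helper52.AD
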