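import Pool.Agent.helper52.AD.Lam

/-!
# The symmetric cycle on pairs of disjoint simplices of the octahedralization

The octahedralization `OL` of the flag complex of `G` has the vertices `V × Bool`; a simplex is a
finite set `σ` on which the first coordinate is injective and whose projection is a clique.
-/

namespace Pool.Agent.helper52.AD

open Finset
open scoped Classical

noncomputable section

variable {V : Type*} [LinearOrder V]

/-- Projection to `V`. -/
def pr (σ : Finset (V × Bool)) : Finset V := σ.image Prod.fst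

/-- `σ` is a simplex of the octahedralization. -/
def IsSx (G : SimpleGraph V) (σ : Finset (V × Bool)) : Prop :=
  Set.InjOn Prod.fst (σ : Set (V × Bool)) ∧ G.IsClique (pr σ : Set V)

/-- The vertices of sign `ε`. -/
def mi (ε : Bool) (σ : Finset (V × Bool)) : Finset V := (σ.filter fun x => x.2 = ε).image Prod.fst

theorem mem_mi {ε : Bool} {σ : Finset (V × Bool)} {v : V} : v ∈ mi ε σ ↔ (v, ε) ∈ σ := by
  simp only [mi, Finset.mem_image, Finset.mem_filter]
  constructor
  · rintro ⟨⟨a, b⟩, ⟨h1, h2⟩, h3⟩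
    simp only at h2 h3
    subst h2 h3
    exact h1
  · intro h
    exact ⟨(v, ε), ⟨h, rfl⟩, rfl⟩

theorem mem_pr {σ : Finset (V × Bool)} {v : V} : v ∈ pr σ ↔ ∃ ε, (v, ε) ∈ σ := by
  simp only [pr, Finset.mem_image]
  constructor
  · rintro ⟨⟨a, b⟩, h1, h2⟩
    simp only at h2
    subst h2
    exact ⟨b, h1⟩
  · rintro ⟨ε, h⟩
    exact ⟨(v, ε), h, rfl⟩

theorem pr_insert (w : V) (ε : Bool) (ρ : Finset (V × Bool)) :
    pr (insert (w, ε) ρ) = insert w (pr ρ) := by
  simp [pr, Finset.image_insert]

theorem IsSx.subset {G : SimpleGraph V} {σ ρ : Finset (V × Bool)} (h : IsSx G σ) (hρ : ρ ⊆ σ) :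
    IsSx G ρ :=
  ⟨h.1.mono (by exact_mod_cast hρ), h.2.subset (by exact_mod_cast Finset.image_subset_image hρ)⟩

theorem IsSx.inj {G : SimpleGraph V} {σ : Finset (V × Bool)} (h : IsSx G σ) {v : V} {a b : Bool}
    (ha : (v, a) ∈ σ) (hb : (v, b) ∈ σ) : a = b := by
  have := h.1 (Finset.mem_coe.2 ha) (Finset.mem_coe.2 hb) rfl
  exact congrArg Prod.snd this

theorem IsSx.card {G : SimpleGraph V} {σ : Finset (V × Bool)} (h : IsSx G σ) :
    (pr σ).card = σ.card := Finset.card_image_of_injOn h.1

/-- The set which carries the signs of a pair. -/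
def PP (σ τ : Finset (V × Bool)) : Finset V := mi false σ ∪ mi true τ

theorem mem_PP {σ τ : Finset (V × Bool)} {v : V} :
    v ∈ PP σ τ ↔ (v, false) ∈ σ ∨ (v, true) ∈ τ := by
  rw [PP, Finset.mem_union, mem_mi, mem_mi]

theorem PP_subset (σ τ : Finset (V × Bool)) : PP σ τ ⊆ pr σ ∪ pr τ := by
  intro v hv
  rw [mem_PP] at hv
  rw [Finset.mem_union, mem_pr, mem_pr]
  exact hv.imp (fun h => ⟨_, h⟩) (fun h => ⟨_, h⟩)

theorem sdiff_PP {G : SimpleGraph V} {σ τ : Finset (V × Bool)} (hσ : IsSx G σ) (hτ : IsSx G τ)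
    (hd : Disjoint σ τ) : (pr σ ∪ pr τ) \ PP σ τ = PP τ σ := by
  rw [Finset.disjoint_left] at hd
  ext v
  rw [Finset.mem_sdiff, Finset.mem_union, mem_PP, mem_PP, mem_pr, mem_pr]
  constructor
  · rintro ⟨h1, h2⟩
    push Not at h2
    rcases h1 with ⟨ε, h⟩ | ⟨ε, h⟩
    · cases ε with
      | false => exact absurd h h2.1
      | true => exact Or.inr h
    · cases ε with
      | false => exact Or.inl h
      | true => exact absurd h h2.2
  · rintro (h | h)
    · refine ⟨Or.inr ⟨_, h⟩, ?_⟩
      rintro (h' | h')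
      · exact hd h' h
      · exact absurd (hτ.inj h h') (by decide)
    · refine ⟨Or.inl ⟨_, h⟩, ?_⟩
      rintro (h' | h')
      · exact absurd (hσ.inj h h') (by decide)
      · exact hd h h'

/-- The cycle on pairs of simplices. -/
def YY (G : SimpleGraph V) (z F : Finset V → ZMod 2) (σ τ : Finset (V × Bool)) : ZMod 2 :=
  if IsSx G σ ∧ IsSx G τ ∧ Disjoint σ τ then
    z (pr σ) * z (pr τ) * Lam G F (pr σ) (pr τ) (PP σ τ) else 0

variable {G : SimpleGraph V} {z F : Finset V → ZMod 2}

theorem YY_symm (hF : ∀ A : Finset V, G.IsClique (A : Set V) → ∑ B ∈ A.ssubsets, F B = 0)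
    (σ τ : Finset (V × Bool)) : YY G z F σ τ = YY G z F τ σ := by
  by_cases h : IsSx G σ ∧ IsSx G τ ∧ Disjoint σ τ
  · rw [YY, YY, if_pos h, if_pos ⟨h.2.1, h.1, h.2.2.symm⟩]
    rw [Lam_swap hF h.1.2 h.2.1.2 (PP_subset σ τ), sdiff_PP h.1 h.2.1 h.2.2]
    ring
  · rw [YY, YY, if_neg h, if_neg]
    rintro ⟨h1, h2, h3⟩
    exact h ⟨h2, h1, h3.symm⟩

/-- The sum over the two signs of a vertex outside `t`. -/
theorem Lam_add {r t P : Finset V} {w : V} (hr : w ∉ r) (ht : w ∉ t) :
    Lam G F (insert w r) t P + Lam G F (insert w r) t (insert w P) = Lam G F r t P := by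
  have hw : w ∉ r ∪ t := by simp [hr, ht]
  have h1 : Lam G F (insert w r) t P =
      Lam G F (insert w r) t (insert w P) + Lam G F r t P := by
    unfold Lam
    rw [← Finset.sum_filter_add_sum_filter_not _ (fun A => w ∈ A)]
    congr 1
    · refine Finset.sum_congr ?_ fun _ _ => rfl
      ext A
      simp only [Finset.mem_filter, Finset.insert_subset_iff]
      tauto
    · refine Finset.sum_congr ?_ fun A hA => ?_
      · ext A
        simp only [Finset.mem_filter, Finset.mem_powerset, Finset.insert_union]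
        constructor
        · rintro ⟨⟨h1, h2⟩, h3⟩
          refine ⟨?_, h2⟩
          intro v hv
          rcases Finset.mem_insert.1 (h1 hv) with rfl | h
          · exact absurd hv h3
          · exact h
        · rintro ⟨h1, h2⟩
          exact ⟨⟨h1.trans (Finset.subset_insert _ _), h2⟩, fun h => hw (h1 h)⟩
      · rw [Finset.mem_filter, Finset.mem_powerset] at hA
        refine yy_congr F fun v hv => ?_
        rw [Finset.mem_insert]
        constructor
        · rintro (rfl | h)
          · exact absurd (hA.1 (NI_subset A hv)) hw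
          · exact h
        · exact Or.inr
  rw [h1, add_comm, ← add_assoc, z2_add_self, zero_add]

/-- A vertex of `t`. -/
theorem Lam_insert {r t P : Finset V} {w : V} (hw : w ∈ t)
    (hr : G.IsClique (insert w r : Finset V)) (ht : G.IsClique (t : Set V)) :
    Lam G F (insert w r) t P = Lam G F r t P := by
  have hS : insert w r ∪ t = r ∪ t := by
    rw [Finset.insert_union, Finset.insert_eq_of_mem]
    exact Finset.mem_union_right _ hw
  unfold Lam
  rw [hS]
  refine Finset.sum_congr rfl fun A hA => ?_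
  rw [Finset.mem_filter, Finset.mem_powerset] at hA
  refine yy_congr F fun v hv => ?_
  rw [Finset.mem_insert]
  constructor
  · rintro (rfl | h)
    · exact absurd hv (notMem_NI hr ht (by rw [hS]; exact hA.1) (Finset.mem_insert_self _ _) hw)
    · exact h
  · exact Or.inr

theorem isSx_insert {ρ : Finset (V × Bool)} {w : V} {ε : Bool} (hρ : IsSx G ρ) (hw : w ∉ pr ρ)
    (hc : G.IsClique (insert w (pr ρ) : Finset V)) : IsSx G (insert (w, ε) ρ) := by
  refine ⟨?_, ?_⟩
  · rw [Finset.coe_insert, Set.injOn_insert]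
    · refine ⟨hρ.1, ?_⟩
      rintro ⟨⟨a, b⟩, h1, h2⟩
      simp only at h2
      subst h2
      exact hw (mem_pr.2 ⟨b, by exact_mod_cast h1⟩)
    · intro h
      exact hw (mem_pr.2 ⟨ε, by exact_mod_cast h⟩)
  · rw [pr_insert]
    exact hc

theorem PP_insert_true (ρ τ : Finset (V × Bool)) (w : V) : PP (insert (w, true) ρ) τ = PP ρ τ := by
  ext v
  simp [mem_PP]

theorem PP_insert_false (ρ τ : Finset (V × Bool)) (w : V) :
    PP (insert (w, false) ρ) τ = insert w (PP ρ τ) := by
  ext v
  simp only [mem_PP, Finset.mem_insert, Prod.mk.injEq, and_true]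
  tauto

/-- The contribution of a vertex `w` to the boundary. -/
theorem YY_sum_bool {k : ℕ} (hz : IsChain G k z) {ρ τ : Finset (V × Bool)}
    (hρ : IsSx G ρ) (hτ : IsSx G τ) (hd : Disjoint ρ τ) (w : V) :
    ∑ ε : Bool, (if (w, ε) ∈ ρ then 0 else YY G z F (insert (w, ε) ρ) τ) =
      (if w ∈ pr ρ then 0 else z (insert w (pr ρ))) *
        (z (pr τ) * Lam G F (pr ρ) (pr τ) (PP ρ τ)) := by
  by_cases hw : w ∈ pr ρ
  · rw [if_pos hw, zero_mul]
    refine Finset.sum_eq_zero fun ε _ => ?_
    split_ifs with h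
    · rfl
    · rw [YY, if_neg]
      rintro ⟨h1, -, -⟩
      obtain ⟨ε', h'⟩ := mem_pr.1 hw
      have := h1.inj (Finset.mem_insert_self _ _) (Finset.mem_insert_of_mem h')
      subst this
      exact h h'
  · rw [if_neg hw]
    have hw' : ∀ ε, (w, ε) ∉ ρ := fun ε h => hw (mem_pr.2 ⟨ε, h⟩)
    by_cases hzs : z (insert w (pr ρ)) = 0
    · rw [hzs, zero_mul]
      refine Finset.sum_eq_zero fun ε _ => ?_
      rw [if_neg (hw' ε), YY]
      split_ifs with h
      · rw [pr_insert, hzs, zero_mul, zero_mul]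
      · rfl
    · have hc := (hz _ hzs).1
      have hI : ∀ ε, IsSx G (insert (w, ε) ρ) := fun ε => isSx_insert hρ hw hc
      rw [Fintype.sum_bool, if_neg (hw' _), if_neg (hw' _)]
      by_cases hwt : w ∈ pr τ
      · obtain ⟨ε, hε⟩ := mem_pr.1 hwt
        cases ε with
        | true =>
          have h1 : YY G z F (insert (w, true) ρ) τ = 0 := by
            rw [YY, if_neg]
            rintro ⟨-, -, h⟩
            exact (Finset.disjoint_left.1 h) (Finset.mem_insert_self _ _) hε
          have hwf : (w, false) ∉ τ := fun h => absurd (hτ.inj h hε) (by decide)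
          rw [h1, zero_add, YY, if_pos, pr_insert, PP_insert_false,
            Finset.insert_eq_of_mem (mem_PP.2 (Or.inr hε)), Lam_insert hwt hc hτ.2]
          · ring
          · refine ⟨hI _, hτ, ?_⟩
            rw [Finset.disjoint_insert_left]
            exact ⟨hwf, hd⟩
        | false =>
          have h1 : YY G z F (insert (w, false) ρ) τ = 0 := by
            rw [YY, if_neg]
            rintro ⟨-, -, h⟩
            exact (Finset.disjoint_left.1 h) (Finset.mem_insert_self _ _) hε
          have hwt' : (w, true) ∉ τ := fun h => absurd (hτ.inj h hε) (by decide)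
          rw [h1, add_zero, YY, if_pos, pr_insert, PP_insert_true, Lam_insert hwt hc hτ.2]
          · ring
          · refine ⟨hI _, hτ, ?_⟩
            rw [Finset.disjoint_insert_left]
            exact ⟨hwt', hd⟩
      · have hwt' : ∀ ε, (w, ε) ∉ τ := fun ε h => hwt (mem_pr.2 ⟨ε, h⟩)
        have hg : ∀ ε, IsSx G (insert (w, ε) ρ) ∧ IsSx G τ ∧ Disjoint (insert (w, ε) ρ) τ := by
          intro ε
          refine ⟨hI _, hτ, ?_⟩
          rw [Finset.disjoint_insert_left]
          exact ⟨hwt' ε, hd⟩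
        rw [YY, YY, if_pos (hg _), if_pos (hg _), pr_insert, pr_insert, PP_insert_true,
          PP_insert_false, ← Lam_add hw hwt]
        ring

/-- The cycle condition. -/
theorem YY_cycle [Fintype V] {k : ℕ} (hz : IsChain G k z) (hbz : bd z = 0)
    (ρ τ : Finset (V × Bool)) : ∑ x ∈ univ \ ρ, YY G z F (insert x ρ) τ = 0 := by
  by_cases h : IsSx G ρ ∧ IsSx G τ ∧ Disjoint ρ τ
  · obtain ⟨hρ, hτ, hd⟩ := h
    have h1 : ∑ x ∈ univ \ ρ, YY G z F (insert x ρ) τ =
        ∑ x : V × Bool, if x ∈ ρ then 0 else YY G z F (insert x ρ) τ := by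
      rw [Finset.sum_ite, Finset.sum_const_zero, zero_add]
      refine Finset.sum_congr ?_ fun _ _ => rfl
      ext x
      simp
    rw [h1, Fintype.sum_prod_type]
    rw [Finset.sum_congr rfl (fun w _ => YY_sum_bool hz hρ hτ hd w), ← Finset.sum_mul]
    have h2 : ∑ w, (if w ∈ pr ρ then 0 else z (insert w (pr ρ))) = bd z (pr ρ) := by
      rw [Finset.sum_ite, Finset.sum_const_zero, zero_add, bd]
      refine Finset.sum_congr ?_ fun _ _ => rfl
      ext x
      simp
    rw [h2, hbz, Pi.zero_apply, zero_mul]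
  · refine Finset.sum_eq_zero fun x _ => ?_
    rw [YY, if_neg]
    rintro ⟨h1, h2, h3⟩
    refine h ⟨h1.subset (Finset.subset_insert _ _), h2, ?_⟩
    exact Finset.disjoint_of_subset_left (Finset.subset_insert _ _) h3

theorem YY_support {k : ℕ} (hz : IsChain G k z) {σ τ : Finset (V × Bool)}
    (h : YY G z F σ τ ≠ 0) : IsSx G σ ∧ IsSx G τ ∧ Disjoint σ τ ∧ σ.card = k ∧ τ.card = k := by
  rw [YY] at h
  split_ifs at h with h1
  · refine ⟨h1.1, h1.2.1, h1.2.2, ?_, ?_⟩
    · rw [← h1.1.card]
      refine (hz _ fun h2 => h ?_).2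
      rw [h2, zero_mul, zero_mul]
    · rw [← h1.2.1.card]
      refine (hz _ fun h2 => h ?_).2
      rw [h2, mul_zero, zero_mul]
  · exact absurd rfl h

end

end Pool.Agent.helper52.AD
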